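import Pool.Agent.Work.MP_db9399_iv_helper38.RXD

/-!
# MP_db9399, all scales, block RGX4, part K0: few conflicts (helper38)

`stmt_K0 : Stmt_K0`.
-/

set_option autoImplicit false

namespace Pool.Agent.Work.MP_db9399_rg_helper38

open Finset Classical
open Pool.Agent.Work.MP_db9399_all (nb)
open Pool.Agent.Work.MP_db9399_da
open Pool.Agent.Work.MP_db9399_xf
open Pool.Agent.Work.MP_db9399_rg_helper42
open Pool.Agent.Work.MP_db9399_iv_helper38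

universe u

/-- `d ^ (-p)` is small -/
theorem ex_rp {p ε : ℝ} (hp : 0 < p) (hε : 0 < ε) :
    ∃ d0 : ℕ, ∀ d : ℕ, d0 ≤ d → (d : ℝ) ^ (-p) ≤ ε := by
  have h1 := (tendsto_rpow_neg_atTop hp).comp tendsto_natCast_atTop_atTop
  have h2 := h1.eventually (eventually_le_nhds hε)
  obtain ⟨d0, h3⟩ := Filter.eventually_atTop.1 h2
  exact ⟨d0, fun d hd => h3 d hd⟩

section
variable {V : Type u} [Fintype V] {N J : ℕ} {C g z θk θ' η a : ℝ} {M : ℕ} {S : Fin J → Scl}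
  {G : SimpleGraph V} {d : ℕ} {X : XD V N J}

/-- pieces of type B -/
theorem k0_B (D : PcD C g z θk θ' η a M S G d X) (hd : 1 ≤ d)
    (hζ : ∀ s, 0 < (S s).ζ) (hθ : ∀ s, (S s).θ ≤ (S s).ζ ^ 2 / 10 ^ 11) (w : V) :
    ((X.P.V0.filter (fun w' => ∃ n, X.P.ty n = Ty.B ∧
      (S (X.sc n)).ζ / 1000 * d ≤ ((nb G w ∩ pV X.P n).card : ℝ) ∧
      (S (X.sc n)).ζ / 1000 * d ≤ ((nb G w' ∩ pV X.P n).card : ℝ))).card : ℝ) ≤
      1 / 10 ^ 5 * d := by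
  have hd0 : (0 : ℝ) < d := by exact_mod_cast hd
  have h1 := g5u D w (univ.filter (fun n => X.P.ty n = Ty.B ∧
    (S (X.sc n)).ζ / 1000 * d ≤ ((nb G w ∩ pV X.P n).card : ℝ)))
    (fun n => X.P.V0.filter (fun w' => (S (X.sc n)).ζ / 1000 * d ≤ ((nb G w' ∩ pV X.P n).card : ℝ)))
    (fun n => (S (X.sc n)).ζ / 1000 * d) (ε := 1 / 10 ^ 5) (by norm_num)
    (fun n hn => (mem_filter.1 hn).2.2) (fun n hn => ?_)
  · refine le_trans ?_ h1
    have : X.P.V0.filter (fun w' => ∃ n, X.P.ty n = Ty.B ∧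
        (S (X.sc n)).ζ / 1000 * d ≤ ((nb G w ∩ pV X.P n).card : ℝ) ∧
        (S (X.sc n)).ζ / 1000 * d ≤ ((nb G w' ∩ pV X.P n).card : ℝ)) ⊆
        (univ.filter (fun n => X.P.ty n = Ty.B ∧
          (S (X.sc n)).ζ / 1000 * d ≤ ((nb G w ∩ pV X.P n).card : ℝ))).biUnion
        (fun n => X.P.V0.filter
          (fun w' => (S (X.sc n)).ζ / 1000 * d ≤ ((nb G w' ∩ pV X.P n).card : ℝ))) := by
      intro w' hw'
      obtain ⟨h0, n, hB, ha, hb⟩ := mem_filter.1 hw'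
      exact mem_biUnion.2 ⟨n, mem_filter.2 ⟨mem_univ _, hB, ha⟩, mem_filter.2 ⟨h0, hb⟩⟩
    exact_mod_cast card_le_card this
  · have h2 := g2' D (Or.inr (mem_filter.1 hn).2.1) ((S (X.sc n)).ζ / 1000 * d)
    have h3 := hζ (X.sc n)
    have h4 := hθ (X.sc n)
    have h5 : 0 < (S (X.sc n)).ζ / 1000 * d := by positivity
    have h6 : (S (X.sc n)).θ * (d : ℝ) ^ 2 ≤
        (1 / 10 ^ 5 * ((S (X.sc n)).ζ / 1000 * d)) * ((S (X.sc n)).ζ / 1000 * d) := by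
      have : (1 / 10 ^ 5 * ((S (X.sc n)).ζ / 1000 * d)) * ((S (X.sc n)).ζ / 1000 * d) =
          (S (X.sc n)).ζ ^ 2 / 10 ^ 11 * (d : ℝ) ^ 2 := by ring
      rw [this]
      exact mul_le_mul_of_nonneg_right h4 (by positivity)
    exact le_of_mul_le_mul_right (h2.trans h6) h5

/-- pieces of type K -/
theorem k0_K (D : PcD C g z θk θ' η a M S G d X) (hd : 1 ≤ d) {τ : ℝ} (hτ : 0 < τ)
    (hθ0 : ∀ s, 0 < (S s).θ) (hθ : ∀ s, (S s).θ ≤ τ / 10 ^ 6) (ha : a ≤ τ ^ 2 / 10 ^ 6) (w : V) :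
    ((X.P.V0.filter (fun w' => ∃ n, X.P.ty n = Ty.K ∧
      τ * d ≤ ((nb G w ∩ pV X.P n).card : ℝ) ∧
      τ * d ≤ ((nb G w' ∩ pV X.P n).card : ℝ))).card : ℝ) ≤ 2 / 10 ^ 6 * d := by
  have hd0 : (0 : ℝ) < d := by exact_mod_cast hd
  have h1 := g5u D w (univ.filter (fun n => X.P.ty n = Ty.K ∧
    τ * d ≤ ((nb G w ∩ pV X.P n).card : ℝ)))
    (fun n => X.P.V0.filter (fun w' => ∃ v ∈ pV X.P n, X.cq w' = X.cq v) ∪
      univ.filter (fun w' => (∀ v ∈ pV X.P n, X.cq w' ≠ X.cq v) ∧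
        τ * d ≤ ((nb G w' ∩ pV X.P n).card : ℝ)))
    (fun _ => τ * d) (ε := 2 / 10 ^ 6) (by norm_num)
    (fun n hn => (mem_filter.1 hn).2.2) (fun n hn => ?_)
  · refine le_trans ?_ h1
    have : X.P.V0.filter (fun w' => ∃ n, X.P.ty n = Ty.K ∧
        τ * d ≤ ((nb G w ∩ pV X.P n).card : ℝ) ∧
        τ * d ≤ ((nb G w' ∩ pV X.P n).card : ℝ)) ⊆
        (univ.filter (fun n => X.P.ty n = Ty.K ∧
          τ * d ≤ ((nb G w ∩ pV X.P n).card : ℝ))).biUnion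
        (fun n => X.P.V0.filter (fun w' => ∃ v ∈ pV X.P n, X.cq w' = X.cq v) ∪
          univ.filter (fun w' => (∀ v ∈ pV X.P n, X.cq w' ≠ X.cq v) ∧
            τ * d ≤ ((nb G w' ∩ pV X.P n).card : ℝ))) := by
      intro w' hw'
      obtain ⟨h0, n, hB, ha, hb⟩ := mem_filter.1 hw'
      refine mem_biUnion.2 ⟨n, mem_filter.2 ⟨mem_univ _, hB, ha⟩, ?_⟩
      by_cases hc : ∃ v ∈ pV X.P n, X.cq w' = X.cq v
      · exact mem_union_left _ (mem_filter.2 ⟨h0, hc⟩)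
      · push Not at hc
        exact mem_union_right _ (mem_filter.2 ⟨mem_univ _, hc, hb⟩)
    exact_mod_cast card_le_card this
  · have h2 := g4 D n (hθ0 _).le
    have h3 := g3' D n (τ * d)
    have h4 := hθ (X.sc n)
    have h5 : 0 < τ * d := by positivity
    have h6 : ((univ.filter (fun w' => (∀ v ∈ pV X.P n, X.cq w' ≠ X.cq v) ∧
        τ * d ≤ ((nb G w' ∩ pV X.P n).card : ℝ))).card : ℝ) ≤ 1 / 10 ^ 6 * (τ * d) := by
      have h7 : τ * d * (1 / 10 ^ 6 * (τ * d)) = τ ^ 2 / 10 ^ 6 * (d : ℝ) ^ 2 := by ring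
      refine le_of_mul_le_mul_left (h3.trans ?_) h5
      rw [h7]
      exact mul_le_mul_of_nonneg_right ha (by positivity)
    have h8 : (S (X.sc n)).θ * d ≤ 1 / 10 ^ 6 * (τ * d) := by
      have : 1 / 10 ^ 6 * (τ * d) = τ / 10 ^ 6 * d := by ring
      rw [this]
      exact mul_le_mul_of_nonneg_right h4 hd0.le
    have h9 : (((X.P.V0.filter (fun w' => ∃ v ∈ pV X.P n, X.cq w' = X.cq v) ∪
      univ.filter (fun w' => (∀ v ∈ pV X.P n, X.cq w' ≠ X.cq v) ∧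
        τ * d ≤ ((nb G w' ∩ pV X.P n).card : ℝ))).card : ℕ) : ℝ) ≤
        ((X.P.V0.filter (fun w' => ∃ v ∈ pV X.P n, X.cq w' = X.cq v)).card : ℝ) +
        ((univ.filter (fun w' => (∀ v ∈ pV X.P n, X.cq w' ≠ X.cq v) ∧
        τ * d ≤ ((nb G w' ∩ pV X.P n).card : ℝ))).card : ℝ) := by
      exact_mod_cast card_union_le _ _
    refine h9.trans ?_
    linarith

/-- the same cluster -/
theorem k0_C (D : PcD C g z θk θ' η a M S G d X)
    (hζ1 : ∀ s, (S s).ζ ≤ 1 / 10 ^ 5) (hζ : ∀ s, 0 < (S s).ζ)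
    (hθ : ∀ s, (S s).θ ≤ (S s).ζ ^ 2 / 10 ^ 11) (w : V) :
    ((X.P.V0.filter (fun w' => ∃ v, v ∉ X.P.V0 ∧ X.cq w = X.cq v ∧ X.cq w' = X.cq v)).card : ℝ) ≤
      1 / 10 ^ 5 * d := by
  have hd0 : (0 : ℝ) ≤ d := Nat.cast_nonneg _
  by_cases h : ∃ v, v ∉ X.P.V0 ∧ X.cq w = X.cq v
  · obtain ⟨v, h1, h2⟩ := h
    have h3 := D.v0c v h1
    have h4 : (S (X.sc (X.P.pc v))).θ ≤ 1 / 10 ^ 5 := by
      have h5 := hθ (X.sc (X.P.pc v))
      have h6 := hζ1 (X.sc (X.P.pc v))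
      have h7 := hζ (X.sc (X.P.pc v))
      have h8 : (S (X.sc (X.P.pc v))).ζ ^ 2 ≤ 1 := by
        have : (S (X.sc (X.P.pc v))).ζ ≤ 1 := h6.trans (by norm_num)
        nlinarith
      have : (S (X.sc (X.P.pc v))).ζ ^ 2 / 10 ^ 11 ≤ 1 / 10 ^ 11 :=
        div_le_div_of_nonneg_right h8 (by norm_num)
      have h9 : (1 : ℝ) / 10 ^ 11 ≤ 1 / 10 ^ 5 := by norm_num
      linarith
    have h5 : ((X.P.V0.filter (fun w' => ∃ v, v ∉ X.P.V0 ∧ X.cq w = X.cq v ∧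
        X.cq w' = X.cq v)).card : ℝ) ≤
        ((univ.filter (fun w => w ∈ X.P.V0 ∧ X.cq w = X.cq v)).card : ℝ) := by
      have : X.P.V0.filter (fun w' => ∃ v, v ∉ X.P.V0 ∧ X.cq w = X.cq v ∧ X.cq w' = X.cq v) ⊆
          univ.filter (fun w => w ∈ X.P.V0 ∧ X.cq w = X.cq v) := by
        intro w' hw'
        obtain ⟨h0, v', _, ha, hb⟩ := mem_filter.1 hw'
        exact mem_filter.2 ⟨mem_univ _, h0, hb.trans (ha.symm.trans h2)⟩
      exact_mod_cast card_le_card this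
    exact h5.trans (h3.trans (mul_le_mul_of_nonneg_right h4 hd0))
  · have : X.P.V0.filter (fun w' => ∃ v, v ∉ X.P.V0 ∧ X.cq w = X.cq v ∧ X.cq w' = X.cq v) = ∅ := by
      rw [filter_eq_empty_iff]
      rintro w' _ ⟨v, h1, h2, _⟩
      exact h ⟨v, h1, h2⟩
    rw [this, card_empty, Nat.cast_zero]
    positivity

/-- far pieces -/
theorem k0_F (D : PcD C g z θk θ' η a M S G d X) {x : ℕ} (hx : 0 < x)
    (hax : a * (d : ℝ) ^ 2 ≤ 1 / 10 ^ 5 * (x : ℝ) ^ 2) (w : V) :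
    ((univ.filter (fun w' => ∃ n, (∀ v ∈ pV X.P n, X.cq w ≠ X.cq v ∧ X.cq w' ≠ X.cq v) ∧
      x ≤ (nb G w ∩ pV X.P n).card ∧ x ≤ (nb G w' ∩ pV X.P n).card)).card : ℝ) ≤
      1 / 10 ^ 5 * d := by
  have hx0 : (0 : ℝ) < x := by exact_mod_cast hx
  have h1 := g5u D w (univ.filter (fun n => x ≤ (nb G w ∩ pV X.P n).card))
    (fun n => univ.filter (fun w' => (∀ v ∈ pV X.P n, X.cq w' ≠ X.cq v) ∧
        (x : ℝ) ≤ ((nb G w' ∩ pV X.P n).card : ℝ)))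
    (fun _ => (x : ℝ)) (ε := 1 / 10 ^ 5) (by norm_num)
    (fun n hn => by exact_mod_cast (mem_filter.1 hn).2) (fun n hn => ?_)
  · refine le_trans ?_ h1
    have : univ.filter (fun w' => ∃ n, (∀ v ∈ pV X.P n, X.cq w ≠ X.cq v ∧ X.cq w' ≠ X.cq v) ∧
        x ≤ (nb G w ∩ pV X.P n).card ∧ x ≤ (nb G w' ∩ pV X.P n).card) ⊆
        (univ.filter (fun n => x ≤ (nb G w ∩ pV X.P n).card)).biUnion
        (fun n => univ.filter (fun w' => (∀ v ∈ pV X.P n, X.cq w' ≠ X.cq v) ∧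
          (x : ℝ) ≤ ((nb G w' ∩ pV X.P n).card : ℝ))) := by
      intro w' hw'
      obtain ⟨_, n, hB, ha, hb⟩ := mem_filter.1 hw'
      exact mem_biUnion.2 ⟨n, mem_filter.2 ⟨mem_univ _, ha⟩,
        mem_filter.2 ⟨mem_univ _, fun v hv => (hB v hv).2, by exact_mod_cast hb⟩⟩
    exact_mod_cast card_le_card this
  · have h3 := g3' D n (x : ℝ)
    refine le_of_mul_le_mul_left (h3.trans ?_) hx0
    have : (x : ℝ) * (1 / 10 ^ 5 * x) = 1 / 10 ^ 5 * (x : ℝ) ^ 2 := by ring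
    rw [this]
    exact hax

end

/-- K0 -/
theorem stmt_K0 : Stmt_K0.{u} := by
  intro πk C g z τ e M J S c' hc
  obtain ⟨_, _, _, _, _, _, _, hτ, _, hc', hS⟩ := hc
  obtain ⟨d1, h1⟩ := ex_rp hc' (ε := τ ^ 2 / 10 ^ 6) (by positivity)
  obtain ⟨d2, h2⟩ := ex_rp (p := c' / 2) (by positivity) (ε := 1 / 10 ^ 5) (by norm_num)
  refine ⟨max 1 (max d1 d2), ?_⟩
  intro V _ N G d X θk θ' η hd D w n β hw
  have hd1 : 1 ≤ d := (le_max_left _ _).trans hd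
  have hd2 : d1 ≤ d := (le_max_left _ _).trans ((le_max_right _ _).trans hd)
  have hd3 : d2 ≤ d := (le_max_right _ _).trans ((le_max_right _ _).trans hd)
  have hd0 : (0 : ℝ) < d := by exact_mod_cast hd1
  have D' := D.toPcD
  -- the far pieces
  have hx : 0 < x0 c' d := Nat.ceil_pos.2 (Real.rpow_pos_of_pos hd0 _)
  have hx1 : (d : ℝ) ^ (1 - c' / 4) ≤ (x0 c' d : ℝ) := Nat.le_ceil _
  have hax : (d : ℝ) ^ (-c') * (d : ℝ) ^ 2 ≤ 1 / 10 ^ 5 * (x0 c' d : ℝ) ^ 2 := by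
    have e1 : ((d : ℝ) ^ (1 - c' / 4)) ^ 2 = (d : ℝ) ^ (2 - c' / 2) := by
      rw [← Real.rpow_natCast ((d : ℝ) ^ (1 - c' / 4)) 2, ← Real.rpow_mul hd0.le]
      congr 1
      push_cast
      ring
    have e2 : (d : ℝ) ^ (-c') * (d : ℝ) ^ 2 = (d : ℝ) ^ (-(c' / 2)) * (d : ℝ) ^ (2 - c' / 2) := by
      rw [← Real.rpow_natCast (d : ℝ) 2, ← Real.rpow_add hd0, ← Real.rpow_add hd0]
      congr 1
      push_cast
      ring
    rw [e2]
    have e3 : ((d : ℝ) ^ (1 - c' / 4)) ^ 2 ≤ (x0 c' d : ℝ) ^ 2 :=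
      pow_le_pow_left₀ (Real.rpow_nonneg hd0.le _) hx1 2
    rw [e1] at e3
    exact mul_le_mul (h2 d hd3) e3 (Real.rpow_nonneg hd0.le _) (by norm_num)
  have hB := k0_B D' hd1 (fun s => (hS s).ζp) (fun s => (hS s).θ1) w
  have hK := k0_K D' hd1 hτ (fun s => (hS s).θp) (fun s => (hS s).θ2) (h1 d hd2) w
  have hC := k0_C D' (fun s => (hS s).ζ1) (fun s => (hS s).ζp) (fun s => (hS s).θ1) w
  have hF := k0_F D' hx hax w
  have hA := g6b D' hw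
  have hζ := (hS (X.sc n)).ζ1
  set A1 := nb G w \ sV X.P n β
  set A2 := X.P.V0.filter (fun w' => ∃ n, X.P.ty n = Ty.B ∧
      (S (X.sc n)).ζ / 1000 * d ≤ ((nb G w ∩ pV X.P n).card : ℝ) ∧
      (S (X.sc n)).ζ / 1000 * d ≤ ((nb G w' ∩ pV X.P n).card : ℝ))
  set A3 := X.P.V0.filter (fun w' => ∃ n, X.P.ty n = Ty.K ∧
      τ * d ≤ ((nb G w ∩ pV X.P n).card : ℝ) ∧
      τ * d ≤ ((nb G w' ∩ pV X.P n).card : ℝ))
  set A4 := X.P.V0.filter (fun w' => ∃ v, v ∉ X.P.V0 ∧ X.cq w = X.cq v ∧ X.cq w' = X.cq v)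
  set A5 := univ.filter (fun w' => ∃ n, (∀ v ∈ pV X.P n, X.cq w ≠ X.cq v ∧ X.cq w' ≠ X.cq v) ∧
      x0 c' d ≤ (nb G w ∩ pV X.P n).card ∧ x0 c' d ≤ (nb G w' ∩ pV X.P n).card)
  have hsub : univ.filter (fun w' => w' ∈ X.P.V0 ∧ w' ≠ w ∧ CgR τ (x0 c' d) S G d X w w') ⊆
      A1 ∪ (A2 ∪ (A3 ∪ (A4 ∪ A5))) := by
    intro w' hw'
    obtain ⟨_, h0, _, hr⟩ := mem_filter.1 hw'
    rcases hr with hr | hr | hr | hr | hr
    · refine mem_union_left _ (mem_sdiff.2 ⟨MP_db9399_rg_helper42.mem_nb.2 hr, fun h => ?_⟩)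
      exact (MP_db9399_rg_helper42.mem_sV.1 h).1 h0
    · exact mem_union_right _ (mem_union_left _ (mem_filter.2 ⟨h0, hr⟩))
    · exact mem_union_right _ (mem_union_right _ (mem_union_left _ (mem_filter.2 ⟨h0, hr⟩)))
    · exact mem_union_right _ (mem_union_right _ (mem_union_right _ (mem_union_left _
        (mem_filter.2 ⟨h0, hr⟩))))
    · exact mem_union_right _ (mem_union_right _ (mem_union_right _ (mem_union_right _
        (mem_filter.2 ⟨mem_univ _, hr⟩))))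
  have hcard : ((univ.filter (fun w' => w' ∈ X.P.V0 ∧ w' ≠ w ∧
      CgR τ (x0 c' d) S G d X w w')).card : ℝ) ≤
      A1.card + (A2.card + (A3.card + (A4.card + A5.card))) := by
    have e1 := (card_le_card hsub).trans ((card_union_le _ _).trans (Nat.add_le_add_left
      ((card_union_le _ _).trans (Nat.add_le_add_left ((card_union_le _ _).trans
        (Nat.add_le_add_left (card_union_le _ _) _)) _)) _))
    exact_mod_cast e1
  have hA' : (A1.card : ℝ) ≤ (1 / 10 ^ 5 + 1 / 200) * d :=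
    hA.trans (mul_le_mul_of_nonneg_right (by linarith) hd0.le)
  refine hcard.trans ?_
  have : (1 / 10 ^ 5 + 1 / 200) * (d : ℝ) + (1 / 10 ^ 5 * d + (2 / 10 ^ 6 * d + (1 / 10 ^ 5 * d +
      1 / 10 ^ 5 * d))) ≤ 6 / 1000 * d := by
    nlinarith
  linarith

end Pool.Agent.Work.MP_db9399_rg_helper38
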